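import Mathlib

/-!
# The final linear programme of Theorem G for `m = 3` (dimension `d = 4`): exponent `x = 1`
-/

set_option autoImplicit false

namespace Pool.Agent.H94.G

open Real

/-- the final linear programme for `m = 3`, in logarithms -/
theorem alg3_log (N H q E A L R M t b a M1 : ℝ) (hL : 0 ≤ L) (hb : 0 ≤ b)
    (hE : t + b + 2 * a + 3 / 2 * R ≤ L + E) (hEA : E ≤ L + 2 * A + 4 * R)
    (hHB : q + 3 * M ≤ L + 2 * t)
    (hL2 : N + 2 * H ≤ L + q + M + b + 2 * a + 2 * R)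
    (hRD : N + 10 / 3 * H ≤ L + 2 / 3 * M1 + 10 / 3 * a + t + b + 5 / 2 * R)
    (hM : M1 ≤ L + M) (ha : a ≤ L + A) :
    N + 3 * H ≤ 4 * L + A + 3 / 2 * R + E := by
  linarith

/-- the final linear programme -/
theorem alg3 (m : ℕ) (hm : m = 3) (N H q E A L R : ℝ) (M1 M t b a : Fin 3 → ℝ)
    (hN : 0 < N) (hH : 0 < H) (hq : 0 < q) (hE0 : 0 < E) (hA : 0 < A) (hL : 1 ≤ L) (hR : 1 ≤ R)
    (hM1 : ∀ i, 0 < M1 i) (hM : ∀ i, 0 < M i) (ht : ∀ i, 0 < t i) (hb : ∀ i, 0 < b i)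
    (ha : ∀ i, 0 < a i) (hb1 : ∀ i, 1 ≤ b i)
    (hE : ∀ i, t i * b i * a i ^ 2 * R ^ ((m : ℝ) / 2) ≤ L * E)
    (hEA : E ≤ L * A ^ 2 * R ^ ((m : ℝ) + 1))
    (_hMU : ∀ i, q * M i ≤ L * t i * R ^ (1 / 2 : ℝ))
    (hHB : ∀ i j, i ≠ j → q * M i * M j ^ 2 ≤ L * t i * t j)
    (_hLW : N * (M1 0 * M1 1 * M1 2) ≤
      L * q * ((M 0 * b 0) * (M 1 * b 1) * (M 2 * b 2)) * R ^ (((m : ℝ) - 1) / 2))
    (hL2 : ∀ i, N * H ^ 2 ≤ L * q * M i * b i * a i ^ 2 * R ^ (((m : ℝ) + 1) / 2))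
    (hRD : ∀ i, N * H ^ (2 * ((m : ℝ) + 2) / m) ≤
      L * M1 i ^ (2 / (m : ℝ)) * a i ^ (2 * ((m : ℝ) + 2) / m) * t i * b i *
        R ^ (((m : ℝ) + 2) / 2))
    (hMM : ∀ i, M1 i ≤ L * M i) (haA : ∀ i, a i ≤ L * A) :
    N * H ^ (2 + 1 : ℝ) ≤ L ^ 4 * A ^ (1 : ℝ) * R ^ (3 / 2 : ℝ) * E := by
  have hL0 : 0 < L := by linarith
  have hR0 : 0 < R := by linarith
  have lE : ∀ i, log (t i) + log (b i) + 2 * log (a i) + (m : ℝ) / 2 * log R ≤
      log L + log E := by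
    intro i
    have h := log_le_log (mul_pos (mul_pos (mul_pos (ht i) (hb i)) (pow_pos (ha i) 2))
      (rpow_pos_of_pos hR0 _)) (hE i)
    rw [log_mul (mul_pos (mul_pos (ht i) (hb i)) (pow_pos (ha i) 2)).ne'
      (rpow_pos_of_pos hR0 _).ne', log_mul (mul_pos (ht i) (hb i)).ne' (pow_pos (ha i) 2).ne',
      log_mul (ht i).ne' (hb i).ne', log_pow, log_rpow hR0, log_mul hL0.ne' hE0.ne'] at h
    push_cast at h
    exact h
  have lEA : log E ≤ log L + 2 * log A + ((m : ℝ) + 1) * log R := by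
    have h := log_le_log hE0 hEA
    rw [log_mul (mul_pos hL0 (pow_pos hA 2)).ne' (rpow_pos_of_pos hR0 _).ne',
      log_mul hL0.ne' (pow_pos hA 2).ne', log_pow, log_rpow hR0] at h
    push_cast at h
    exact h
  have lHB : ∀ i j, i ≠ j → log q + log (M i) + 2 * log (M j) ≤
      log L + log (t i) + log (t j) := by
    intro i j hij
    have h := log_le_log (mul_pos (mul_pos hq (hM i)) (pow_pos (hM j) 2)) (hHB i j hij)
    rw [log_mul (mul_pos hL0 (ht i)).ne' (ht j).ne', log_mul hL0.ne' (ht i).ne',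
      log_mul (mul_pos hq (hM i)).ne' (pow_pos (hM j) 2).ne', log_mul hq.ne' (hM i).ne',
      log_pow] at h
    push_cast at h
    exact h
  have lL2 : ∀ i, log N + 2 * log H ≤ log L + log q + log (M i) + log (b i) + 2 * log (a i) +
      ((m : ℝ) + 1) / 2 * log R := by
    intro i
    have h := log_le_log (mul_pos hN (pow_pos hH 2)) (hL2 i)
    rw [log_mul hN.ne' (pow_pos hH 2).ne', log_pow,
      log_mul (mul_pos (mul_pos (mul_pos (mul_pos hL0 hq) (hM i)) (hb i)) (pow_pos (ha i) 2)).ne'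
        (rpow_pos_of_pos hR0 _).ne',
      log_mul (mul_pos (mul_pos (mul_pos hL0 hq) (hM i)) (hb i)).ne' (pow_pos (ha i) 2).ne',
      log_mul (mul_pos (mul_pos hL0 hq) (hM i)).ne' (hb i).ne',
      log_mul (mul_pos hL0 hq).ne' (hM i).ne', log_mul hL0.ne' hq.ne', log_pow,
      log_rpow hR0] at h
    push_cast at h
    exact h
  have lRD : ∀ i, log N + 2 * ((m : ℝ) + 2) / m * log H ≤
      log L + 2 / (m : ℝ) * log (M1 i) + 2 * ((m : ℝ) + 2) / m * log (a i) + log (t i) +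
      log (b i) + ((m : ℝ) + 2) / 2 * log R := by
    intro i
    have p1 := rpow_pos_of_pos (hM1 i) (2 / (m : ℝ))
    have p2 := rpow_pos_of_pos (ha i) (2 * ((m : ℝ) + 2) / m)
    have h := log_le_log (mul_pos hN (rpow_pos_of_pos hH _)) (hRD i)
    rw [log_mul hN.ne' (rpow_pos_of_pos hH _).ne', log_rpow hH,
      log_mul (mul_pos (mul_pos (mul_pos (mul_pos hL0 p1) p2) (ht i)) (hb i)).ne'
        (rpow_pos_of_pos hR0 _).ne',
      log_mul (mul_pos (mul_pos (mul_pos hL0 p1) p2) (ht i)).ne' (hb i).ne',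
      log_mul (mul_pos (mul_pos hL0 p1) p2).ne' (ht i).ne',
      log_mul (mul_pos hL0 p1).ne' p2.ne', log_mul hL0.ne' p1.ne', log_rpow (hM1 i),
      log_rpow (ha i), log_rpow hR0] at h
    exact h
  have lMM : ∀ i, log (M1 i) ≤ log L + log (M i) := by
    intro i
    have h := log_le_log (hM1 i) (hMM i)
    rwa [log_mul hL0.ne' (hM i).ne'] at h
  have laA : ∀ i, log (a i) ≤ log L + log A := by
    intro i
    have h := log_le_log (ha i) (haA i)
    rwa [log_mul hL0.ne' hA.ne'] at h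
  subst hm
  have lb : ∀ i, 0 ≤ log (b i) := fun i => log_nonneg (hb1 i)
  have e1 : (((3 : ℕ) : ℝ) + 1) / 2 = 2 := by norm_num
  have e2 : 2 * (((3 : ℕ) : ℝ) + 2) / ((3 : ℕ) : ℝ) = 10 / 3 := by norm_num
  have e3 : 2 / ((3 : ℕ) : ℝ) = 2 / 3 := by norm_num
  have e4 : (((3 : ℕ) : ℝ) + 2) / 2 = 5 / 2 := by norm_num
  have e5 : ((3 : ℕ) : ℝ) / 2 = 3 / 2 := by norm_num
  have e6 : (((3 : ℕ) : ℝ) + 1) = 4 := by norm_num
  rw [e6] at lEA
  rw [e1] at lL2
  rw [e2, e3, e4] at lRD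
  rw [e5] at lE
  have key := alg3_log (log N) (log H) (log q) (log E) (log A) (log L) (log R)
    ((log (M 0) + log (M 1) + log (M 2)) / 3) ((log (t 0) + log (t 1) + log (t 2)) / 3)
    ((log (b 0) + log (b 1) + log (b 2)) / 3) ((log (a 0) + log (a 1) + log (a 2)) / 3)
    ((log (M1 0) + log (M1 1) + log (M1 2)) / 3) (log_nonneg hL)
    (by linarith [lb 0, lb 1, lb 2])
    (by linarith [lE 0, lE 1, lE 2]) lEA
    (by linarith [lHB 0 1 (by decide), lHB 1 2 (by decide), lHB 2 0 (by decide)])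
    (by linarith [lL2 0, lL2 1, lL2 2])
    (by linarith [lRD 0, lRD 1, lRD 2])
    (by linarith [lMM 0, lMM 1, lMM 2]) (by linarith [laA 0, laA 1, laA 2])
  have hpos : 0 < L ^ 4 * A ^ (1 : ℝ) * R ^ (3 / 2 : ℝ) * E := by positivity
  rw [← log_le_log_iff (mul_pos hN (rpow_pos_of_pos hH _)) hpos,
    log_mul hN.ne' (rpow_pos_of_pos hH _).ne', log_rpow hH,
    log_mul (by positivity) hE0.ne', log_mul (by positivity) (by positivity),
    log_mul (by positivity) (by positivity), log_pow, log_rpow hA, log_rpow hR0]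
  push_cast
  linarith [key]

end Pool.Agent.H94.G
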